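import Pool.Agent.Lib.MP_acafa7_al.F.IfaceG
import Pool.Agent.Lib.MP_acafa7_al.MS.H57.QuadA
import Pool.Agent.Lib.MP_acafa7_al.MS.H09.Ang

/-! Module QAREA: areas of triangles and flips. -/

namespace MSG.F97

open Classical

theorem tarea_eq {a b c : ℝ} (h : Tr a b c) : tarea a b c =
    Real.sqrt (2 * (a ^ 2 * b ^ 2 + b ^ 2 * c ^ 2 + c ^ 2 * a ^ 2) - (a ^ 4 + b ^ 4 + c ^ 4)) /
      4 := by
  have ha := h.px
  have hb := h.py
  unfold tarea
  rw [H09.sin_ang h.px h.py h.pz h.hx h.hy h.hz]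
  field_simp
  ring

theorem tarea_rot {a b c : ℝ} (h : Tr a b c) : tarea a b c = tarea b c a := by
  rw [tarea_eq h, tarea_eq (H57.trRot h)]
  congr 2
  ring

theorem tarea_swap {a b c : ℝ} (h : Tr a b c) : tarea a b c = tarea b a c := by
  have h' : Tr b a c := ⟨h.py, h.px, h.pz, h.hy, h.hx, by linarith [h.hz]⟩
  rw [tarea_eq h, tarea_eq h']
  congr 2
  ring

theorem tarea_pos {a b c : ℝ} (h : Tr a b c) : 0 < tarea a b c := by
  rw [tarea_eq h]
  have := Real.sqrt_pos.2 (H09.heron_pos h.px h.py h.pz h.hx h.hy h.hz)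
  positivity

theorem qarea_st : QAreaStatement := by
  refine ⟨fun a b c h => ⟨tarea_rot h, tarea_swap h, tarea_pos h⟩, ?_⟩
  intro c a1 a2 b1 b2 L hQ hL
  have t1 : tarea c a1 a2 = (1 / 2) * a2 * a1 * Real.sin (ang a2 a1 c) := by
    rw [tarea_rot hQ.ta]
    unfold tarea
    rw [H57.ang_comm a1 a2 c]
    ring
  have t2 : tarea c b1 b2 = (1 / 2) * b2 * b1 * Real.sin (ang b2 b1 c) := by
    rw [tarea_rot hQ.tb]
    unfold tarea
    rw [H57.ang_comm b1 b2 c]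
    ring
  rw [t1, t2, ← hL.ax, ← hL.ay, Real.sin_add, Real.sin_add, H57.ang_comm a2 L b1,
    H57.ang_comm b2 L a1]
  obtain ⟨p1, h1⟩ := H57.proj_height hL.ta
  obtain ⟨p2, h2⟩ := H57.proj_height hL.tb
  unfold tarea
  set sp := Real.sin (ang L a2 b1)
  set cp := Real.cos (ang L a2 b1)
  set sr := Real.sin (ang L b1 a2)
  set cr := Real.cos (ang L b1 a2)
  set ss := Real.sin (ang L b2 a1)
  set cs := Real.cos (ang L b2 a1)
  set sq := Real.sin (ang L a1 b2)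
  set cq := Real.cos (ang L a1 b2)
  -- h1 : a2 * sp = b1 * sr ; h2 : b2 * ss = a1 * sq
  -- p1 : a2 * cp + b1 * cr = L ; p2 : b2 * cs + a1 * cq = L
  linear_combination (1 / 2) * (a2 * sp) * p2 + (1 / 2) * (b2 * ss) * p1
    - (1 / 2) * b2 * cs * h1 - (1 / 2) * a2 * cp * h2

end MSG.F97
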